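import Mathlib
import Pool.Agent.Lib.MP_dfa990_al.Final

/-! No uniform threshold: for every real `lam0` some non-hyperbolic finitely generated group has a
context-free language of `(lam, 0)`-quasigeodesics with `lam > lam0`. -/

namespace Pool.Agent.Results.MP_dfa990_al.NoThreshold
open Pool.Agent.Lib.MP_dfa990_al

theorem result : ∀ lam0 : ℝ, ∃ (G : Type) (_ : Group G) (S : Finset G) (lam : ℝ),
    IsSymmGen S ∧ ¬ IsHyperbolic G ∧ lam0 < lam ∧ 0 < lam ∧ (QGLang S lam 0).IsContextFree := by
  intro lam0
  obtain ⟨m, hm⟩ := exists_nat_gt (max (6 * lam0) 400)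
  have h1 := (le_max_left _ _).trans_lt hm
  have h2 := (le_max_right _ _).trans_lt hm
  have h3 : 400 ≤ m := by exact_mod_cast h2.le
  exact ⟨GG (m + 6), inferInstance, gens (m + 6), m / 6, gens_ok, gg_not_hyp (by omega),
    by linarith, by linarith, gg_cf h3⟩

end Pool.Agent.Results.MP_dfa990_al.NoThreshold
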